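import Pool.Agent.helper68.SF.SpecW

/-!
# Project sf: module MH (the kernel at a pair is the one of the first vector)
-/

set_option autoImplicit false

namespace SF

open Pool.Agent.helper72.Sq
open scoped ContDiff

theorem MH_YY (u : ℤ × ℤ) (x y : ℝ) : YY u x y = y / ip u u x y := by
  unfold YY Yr ip
  congr 1
  ring

theorem MH (hMG : MG_stmt) (hB01 : B01_stmt) : MH_stmt := by
  intro g hg v hv m s x y hy
  obtain ⟨h1, -, h3, h4, h5, h6⟩ := hMG
  obtain ⟨-, -, -, -, -, hb⟩ := hB01 g hg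
  have hV : 0 < ip v v x y := h3 v hv x y hy
  have hdt : dt ((5 : ℤ) • cpl v + m • v) v = 5 := by
    have h := h1 v hv
    unfold dt at h ⊢
    simp only [Prod.fst_add, Prod.snd_add, Prod.smul_fst, Prod.smul_snd, smul_eq_mul]
    linear_combination (5 : ℤ) * h
  have hUV := h6 ((5 : ℤ) • cpl v + m • v) v x y
  rw [hdt] at hUV
  rw [h4 v hv x y hy m, h5 v hv x y hy, MH_YY]
  rw [hb s _ _ (div_pos hy hV)]
  congr 1
  generalize ip ((5 : ℤ) • cpl v + m • v) ((5 : ℤ) • cpl v + m • v) x y = U at hUV ⊢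
  generalize ip ((5 : ℤ) • cpl v + m • v) v x y = W at hUV ⊢
  generalize ip v v x y = V at hUV hV ⊢
  push_cast at hUV
  have hpos : 0 < U * V := by
    rw [hUV]
    have h7 : 0 < (5 : ℝ) ^ 2 * y ^ 2 := by positivity
    have h8 : 0 ≤ W ^ 2 := sq_nonneg W
    linarith only [h7, h8]
  have hU : 0 < U := by
    rcases (mul_pos_iff.mp hpos) with h | h
    · exact h.1
    · exact absurd hV (not_lt.mpr h.2.le)
  have h9 : 25 * ((W / (5 * V)) ^ 2 + (y / V) ^ 2) = U / V := by
    have hV0 : V ≠ 0 := hV.ne'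
    field_simp
    linear_combination (-25 : ℝ) * hUV
  rw [h9]
  have hV0 : V ≠ 0 := hV.ne'
  have hU0 : U ≠ 0 := hU.ne'
  field_simp

end SF
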